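import Mathlib

set_option autoImplicit false

namespace Pool.Agent.Results.MP_10302a_co.Unbounded

/-- A cell of the grid with `m` rows and `n` columns. -/
abbrev Cell (m n : ℕ) := Fin m × Fin n

/-- An augmented graph: 1-edges (cells), 2-edges and 3-edges (sets of cells). -/
structure Aug (m n : ℕ) where
  E1 : Finset (Cell m n)
  E2 : Finset (Finset (Cell m n))
  E3 : Finset (Finset (Cell m n))

/-- 2-edges have two cells, 3-edges have three cells, and no cell lies in more than one edge. -/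
def Simple {m n : ℕ} (G : Aug m n) : Prop :=
  (∀ e ∈ G.E2, e.card = 2) ∧ (∀ e ∈ G.E3, e.card = 3) ∧
  (∀ c ∈ G.E1, ∀ e ∈ G.E2 ∪ G.E3, c ∉ e) ∧
  (∀ e ∈ G.E2 ∪ G.E3, ∀ f ∈ G.E2 ∪ G.E3, e ≠ f → Disjoint e f)

/-- The cell lies in `E1` or in some 2-edge or 3-edge. -/
def Occ {m n : ℕ} (G : Aug m n) (c : Cell m n) : Prop :=
  c ∈ G.E1 ∨ ∃ e ∈ G.E2 ∪ G.E3, c ∈ e

/-- The cell lies in `E1` or in some 2-edge. -/
def Occ12 {m n : ℕ} (G : Aug m n) (c : Cell m n) : Prop :=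
  c ∈ G.E1 ∨ ∃ e ∈ G.E2, c ∈ e

/-- Condition 1: a four-cycle of cells in `E`. -/
def HasC4 {m n : ℕ} (E : Finset (Cell m n)) : Prop :=
  ∃ (i k : Fin m) (j l : Fin n), i ≠ k ∧ j ≠ l ∧
    (i, j) ∈ E ∧ (i, l) ∈ E ∧ (k, j) ∈ E ∧ (k, l) ∈ E

/-- Condition 2: a rectangle covered by two edges of `E2 ∪ E3`, each containing two of its
four cells. -/
def Cond2 {m n : ℕ} (G : Aug m n) : Prop :=
  ∃ (i k : Fin m) (j l : Fin n), i ≠ k ∧ j ≠ l ∧
    ∃ e ∈ G.E2 ∪ G.E3, ∃ f ∈ G.E2 ∪ G.E3, e ≠ f ∧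
      ({(i, j), (i, l), (k, j), (k, l)} : Finset (Cell m n)) ⊆ e ∪ f ∧
      (({(i, j), (i, l), (k, j), (k, l)} : Finset (Cell m n)) ∩ e).card = 2 ∧
      (({(i, j), (i, l), (k, j), (k, l)} : Finset (Cell m n)) ∩ f).card = 2

/-- Condition 3. -/
def Cond3 {m n : ℕ} (G : Aug m n) : Prop :=
  ∃ (i p k : Fin m) (j q l : Fin n), ({(i, j), (p, q)} : Finset (Cell m n)) ∈ G.E2 ∧
    k ≠ i ∧ k ≠ p ∧ l ≠ j ∧ l ≠ q ∧
    (∀ c ∈ [(k, j), (k, l), (k, q), (i, l), (p, l)], Occ12 G c) ∧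
    (i ≠ p ∧ j ≠ q → [(k, j), (k, l), (k, q), (i, l), (p, l)].Nodup)

/-- Condition 4. -/
def Cond4 {m n : ℕ} (G : Aug m n) : Prop :=
  ∃ (i p u k : Fin m) (j q v l : Fin n),
    ({(i, j), (p, q), (u, v)} : Finset (Cell m n)) ∈ G.E3 ∧
    k ≠ i ∧ k ≠ p ∧ k ≠ u ∧ l ≠ j ∧ l ≠ q ∧ l ≠ v ∧
    (∀ c ∈ [(k, j), (k, l), (k, q), (k, v), (i, l), (p, l), (u, l)], Occ G c) ∧
    ([i, p, u].Nodup ∧ [j, q, v].Nodup →
      [(k, j), (k, l), (k, q), (k, v), (i, l), (p, l), (u, l)].Nodup)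

/-- Generalized cycle-free. -/
def Free {m n : ℕ} (G : Aug m n) : Prop :=
  ¬ HasC4 G.E1 ∧ ¬ Cond2 G ∧ ¬ Cond3 G ∧ ¬ Cond4 G

/-- The Zarankiewicz number. -/
noncomputable def z (m n : ℕ) : ℕ :=
  sSup {N | ∃ E : Finset (Cell m n), ¬ HasC4 E ∧ E.card = N}

/-- The number `z_{3A}`. -/
noncomputable def z3A (m n : ℕ) : ℕ :=
  sSup {N | ∃ G : Aug m n, Simple G ∧ Free G ∧ G.E1.card + G.E2.card + G.E3.card = N}

/-- The number `z_{3L}`. -/
noncomputable def z3L (m n : ℕ) : ℕ :=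
  sSup {N | ∃ G : Aug m n, Simple G ∧ Free G ∧ G.E1.card = z m n ∧
    G.E1.card + G.E2.card + G.E3.card = N}

def P (m : ℕ) : Finset (Fin m × Fin m) := Finset.univ.filter (fun p => p.1 < p.2)

lemma upper {m n : ℕ} (E : Finset (Cell m n)) (h : ¬ HasC4 E) : E.card ≤ n + (P m).card := by
  classical
  have hne : ∀ c ∈ E, (Finset.univ.filter (fun i : Fin m => (i, c.2) ∈ E)).Nonempty :=
    fun c hc => ⟨c.1, by simpa using hc⟩
  let mn : Cell m n → Fin m := fun c =>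
    if hc : c ∈ E then (Finset.univ.filter (fun i : Fin m => (i, c.2) ∈ E)).min' (hne c hc)
    else c.1
  have h1 : ∀ c ∈ E, (mn c, c.2) ∈ E := by
    intro c hc
    have := Finset.min'_mem _ (hne c hc)
    simp only [mn, dif_pos hc]
    simpa using this
  have h2 : ∀ c ∈ E, ∀ d ∈ E, d.2 = c.2 → mn c ≤ d.1 := by
    intro c hc d hd hcd
    simp only [mn, dif_pos hc]
    apply Finset.min'_le
    rw [← hcd]
    simpa using hd
  let f : Cell m n → Fin n ⊕ (Fin m × Fin m) := fun c =>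
    if mn c = c.1 then Sum.inl c.2 else Sum.inr (mn c, c.1)
  have := Finset.card_le_card_of_injOn (s := E) (t := (Finset.univ : Finset (Fin n)).disjSum (P m))
    f ?_ ?_
  · simpa using this
  · intro c hc
    have hc' : c ∈ E := by simpa using hc
    simp only [f]
    split_ifs with hh
    · simp
    · have := h2 c hc' c hc' rfl
      simp [P, lt_of_le_of_ne this hh]
  · intro c hc d hd hcd
    have hc' : c ∈ E := by simpa using hc
    have hd' : d ∈ E := by simpa using hd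
    simp only [f] at hcd
    split_ifs at hcd with a b b
    · have e : c.2 = d.2 := by simpa using hcd
      have a1 := h2 c hc' d hd' e.symm
      have a2 := h2 d hd' c hc' e
      exact Prod.ext (le_antisymm (a ▸ a1) (b ▸ a2)) e
    · simp only [Sum.inr.injEq, Prod.mk.injEq] at hcd
      by_contra hne'
      have e : c.2 ≠ d.2 := fun e => hne' (Prod.ext hcd.2 e)
      refine h ⟨mn c, c.1, c.2, d.2, a, e, h1 c hc', ?_, hc', ?_⟩
      · rw [hcd.1]; exact h1 d hd'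
      · rw [hcd.2]; exact hd'

def col {m : ℕ} (p : Fin m × Fin m) : Fin (m * m) := finProdFinEquiv p
def X {m : ℕ} (c : Fin (m * m)) : Fin m := (finProdFinEquiv.symm c).1
def Y {m : ℕ} (c : Fin (m * m)) : Fin m := (finProdFinEquiv.symm c).2

@[simp] lemma X_col {m : ℕ} (p : Fin m × Fin m) : X (col p) = p.1 := by
  unfold X col; rw [Equiv.symm_apply_apply]
@[simp] lemma Y_col {m : ℕ} (p : Fin m × Fin m) : Y (col p) = p.2 := by
  unfold Y col; rw [Equiv.symm_apply_apply]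

lemma col_ext {m : ℕ} {c d : Fin (m * m)} (h1 : X c = X d) (h2 : Y c = Y d) : c = d :=
  finProdFinEquiv.symm.injective (Prod.ext h1 h2)

def F1 (m : ℕ) : Finset (Cell m (m * m)) :=
  Finset.univ.image (fun j => (X j, j)) ∪ (P m).image (fun p => (p.2, col p))

lemma mem_F1 {m : ℕ} {c : Cell m (m * m)} (h : c ∈ F1 m) :
    c.1 = X c.2 ∨ (X c.2 < Y c.2 ∧ c.1 = Y c.2) := by
  rcases Finset.mem_union.1 h with h | h
  · obtain ⟨j, -, rfl⟩ := Finset.mem_image.1 h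
    exact Or.inl rfl
  · obtain ⟨p, hp, rfl⟩ := Finset.mem_image.1 h
    right
    simpa [P] using hp

lemma card_F1 (m : ℕ) : (F1 m).card = m * m + (P m).card := by
  unfold F1
  rw [Finset.card_union_of_disjoint, Finset.card_image_of_injective,
    Finset.card_image_of_injective]
  · simp
  · intro p q h
    simp only [Prod.mk.injEq] at h
    exact finProdFinEquiv.injective h.2
  · intro p q h
    simp only [Prod.mk.injEq] at h
    exact h.2
  · rw [Finset.disjoint_left]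
    intro c h1 h2
    obtain ⟨j, -, rfl⟩ := Finset.mem_image.1 h1
    obtain ⟨p, hp, h⟩ := Finset.mem_image.1 h2
    simp only [Prod.mk.injEq] at h
    have hp' : p.1 < p.2 := by simpa [P] using hp
    rw [← h.2, X_col] at h
    exact absurd h.1 hp'.ne'

lemma free_F1 (m : ℕ) : ¬ HasC4 (F1 m) := by
  rintro ⟨i, k, j, l, hik, hjl, h1, h2, h3, h4⟩
  have a1 := mem_F1 h1
  have a2 := mem_F1 h2
  have a3 := mem_F1 h3
  have a4 := mem_F1 h4
  apply hjl
  simp only [Fin.ext_iff, Fin.lt_def, ne_eq] at a1 a2 a3 a4 hik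
  apply col_ext
  · apply Fin.ext; omega
  · apply Fin.ext; omega

lemma z_eq (m : ℕ) : (F1 m).card = z m (m * m) := by
  symm
  apply IsGreatest.csSup_eq
  refine ⟨⟨F1 m, free_F1 m, rfl⟩, ?_⟩
  rintro N ⟨E, hE, rfl⟩
  rw [card_F1]
  exact upper E hE

def t (s : ℕ) (r : Fin s) (a : Fin 3) : Fin (3 * s) :=
  ⟨3 * r + a, by have := r.2; have := a.2; omega⟩

def ed (s : ℕ) (p : Fin s × Fin s × Fin s) : Finset (Cell (3 * s) (3 * s * (3 * s))) :=
  {(t s p.1 0, col (t s p.2.1 1, t s p.2.2 1)), (t s p.1 1, col (t s p.2.1 2, t s p.2.2 2)),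
    (t s p.1 2, col (t s p.2.1 0, t s p.2.2 0))}

lemma mem_ed {s : ℕ} {p : Fin s × Fin s × Fin s} {c : Cell (3 * s) (3 * s * (3 * s))}
    (h : c ∈ ed s p) :
    c.1.1 / 3 = p.1 ∧ (X c.2).1 / 3 = p.2.1 ∧ (Y c.2).1 / 3 = p.2.2 ∧
      (X c.2).1 % 3 = (c.1.1 + 1) % 3 ∧ (Y c.2).1 % 3 = (c.1.1 + 1) % 3 := by
  simp only [ed, Finset.mem_insert, Finset.mem_singleton] at h
  rcases h with rfl | rfl | rfl
  all_goals
    simp only [X_col, Y_col, t, Fin.val_zero, Fin.val_one, Fin.val_two]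
    omega

lemma ed_eq {s : ℕ} {p q : Fin s × Fin s × Fin s} {c : Cell (3 * s) (3 * s * (3 * s))}
    (h : c ∈ ed s p) (h' : c ∈ ed s q) : p = q := by
  have a := mem_ed h
  have b := mem_ed h'
  refine Prod.ext (Fin.ext ?_) (Prod.ext (Fin.ext ?_) (Fin.ext ?_)) <;> omega

lemma cell_eq {s : ℕ} {p : Fin s × Fin s × Fin s} {c d : Cell (3 * s) (3 * s * (3 * s))}
    (h : c ∈ ed s p) (h' : d ∈ ed s p) (e : c.1.1 % 3 = d.1.1 % 3) : c = d := by
  have a := mem_ed h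
  have b := mem_ed h'
  refine Prod.ext (Fin.ext ?_) (col_ext (Fin.ext ?_) (Fin.ext ?_)) <;> omega

lemma ed_inj (s : ℕ) : Function.Injective (ed s) := by
  intro p q h
  have h1 : (t s p.1 0, col (t s p.2.1 1, t s p.2.2 1)) ∈ ed s p := by simp [ed]
  exact ed_eq h1 (h ▸ h1)

lemma card_ed (s : ℕ) (p : Fin s × Fin s × Fin s) : (ed s p).card = 3 := by
  rw [Finset.card_eq_three]
  refine ⟨_, _, _, ?_, ?_, ?_, rfl⟩
  all_goals
    intro h
    have := congrArg (fun c => c.1.1) h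
    simp [t] at this

def G0 (s : ℕ) : Aug (3 * s) (3 * s * (3 * s)) := ⟨F1 (3 * s), ∅, Finset.univ.image (ed s)⟩

lemma mem_G0 {s : ℕ} {e : Finset (Cell (3 * s) (3 * s * (3 * s)))}
    (h : e ∈ (G0 s).E2 ∪ (G0 s).E3) : ∃ p, e = ed s p := by
  simp only [G0, Finset.empty_union] at h
  obtain ⟨p, -, rfl⟩ := Finset.mem_image.1 h
  exact ⟨p, rfl⟩

lemma simple_G0 (s : ℕ) : Simple (G0 s) := by
  refine ⟨?_, ?_, ?_, ?_⟩
  · intro e he
    simp [G0] at he
  · intro e he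
    obtain ⟨p, rfl⟩ := mem_G0 (Finset.mem_union_right _ he)
    exact card_ed s p
  · intro c hc e he hce
    obtain ⟨p, rfl⟩ := mem_G0 he
    have a := mem_ed hce
    have b := mem_F1 hc
    simp only [Fin.ext_iff, Fin.lt_def] at b
    omega
  · intro e he f hf hne
    obtain ⟨p, rfl⟩ := mem_G0 he
    obtain ⟨q, rfl⟩ := mem_G0 hf
    rw [Finset.disjoint_left]
    intro c h1 h2
    exact hne (by rw [ed_eq h1 h2])

lemma occ_G0 {s : ℕ} {p : Fin s × Fin s × Fin s} {i k : Fin (3 * s)}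
    {j : Fin (3 * s * (3 * s))} (h : (i, j) ∈ ed s p) (h' : Occ (G0 s) (k, j)) :
    k.1 % 3 = i.1 % 3 ∨ k.1 % 3 = (i.1 + 1) % 3 := by
  have a := mem_ed h
  rcases h' with h' | ⟨e, he, h'⟩
  · have b := mem_F1 h'
    simp only [Fin.ext_iff, Fin.lt_def] at a b
    omega
  · obtain ⟨q, rfl⟩ := mem_G0 he
    have b := mem_ed h'
    simp only at a b
    omega

lemma free_G0 (s : ℕ) : Free (G0 s) := by
  refine ⟨free_F1 _, ?_, ?_, ?_⟩
  · rintro ⟨i, k, j, l, -, -, e, he, f, hf, -, hsub, hc, -⟩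
    obtain ⟨p, rfl⟩ := mem_G0 he
    obtain ⟨q, rfl⟩ := mem_G0 hf
    have key : ∀ c ∈ ed s p ∪ ed s q, (X c.2).1 % 3 = (c.1.1 + 1) % 3 := by
      intro c hc
      rcases Finset.mem_union.1 hc with h | h
      · exact (mem_ed h).2.2.2.1
      · exact (mem_ed h).2.2.2.1
    have a1 := key (i, j) (hsub (by simp))
    have a2 := key (k, j) (hsub (by simp))
    simp only at a1 a2
    obtain ⟨c, hc1, d, hd1, hcd⟩ := Finset.one_lt_card.1 (show 1 < _ by rw [hc]; norm_num)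
    rw [Finset.mem_inter] at hc1 hd1
    apply hcd (cell_eq hc1.2 hd1.2 ?_)
    have b1 : c.1 = i ∨ c.1 = k := by
      have := hc1.1
      simp only [Finset.mem_insert, Finset.mem_singleton] at this
      rcases this with rfl | rfl | rfl | rfl <;> simp
    have b2 : d.1 = i ∨ d.1 = k := by
      have := hd1.1
      simp only [Finset.mem_insert, Finset.mem_singleton] at this
      rcases this with rfl | rfl | rfl | rfl <;> simp
    simp only [Fin.ext_iff] at b1 b2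
    omega
  · rintro ⟨i, p, k, j, q, l, h, -⟩
    simp [G0] at h
  · rintro ⟨i, p, u, k, j, q, v, l, h, -, -, -, -, -, -, ho, -⟩
    obtain ⟨w, hw⟩ := mem_G0 (Finset.mem_union_right _ h)
    have hc := card_ed s w
    have m1 : (i, j) ∈ ed s w := hw ▸ (by simp)
    have m2 : (p, q) ∈ ed s w := hw ▸ (by simp)
    have m3 : (u, v) ∈ ed s w := hw ▸ (by simp)
    rw [← hw] at hc
    have n12 : i.1 % 3 ≠ p.1 % 3 := by
      intro e
      have := cell_eq m1 m2 e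
      rw [this, Finset.insert_eq_of_mem (by simp)] at hc
      have := Finset.card_le_two (a := (p, q)) (b := (u, v))
      omega
    have n13 : i.1 % 3 ≠ u.1 % 3 := by
      intro e
      have := cell_eq m1 m3 e
      rw [this, Finset.insert_eq_of_mem (by simp)] at hc
      have := Finset.card_le_two (a := (p, q)) (b := (u, v))
      omega
    have n23 : p.1 % 3 ≠ u.1 % 3 := by
      intro e
      have := cell_eq m2 m3 e
      rw [this, Finset.insert_eq_of_mem (s := {(u, v)}) (by simp)] at hc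
      have := Finset.card_le_two (a := (i, j)) (b := (u, v))
      omega
    have o1 := occ_G0 m1 (ho (k, j) (by simp))
    have o2 := occ_G0 m2 (ho (k, q) (by simp))
    have o3 := occ_G0 m3 (ho (k, v) (by simp))
    omega

lemma card_G0 (s : ℕ) : s ^ 3 ≤ (G0 s).E1.card + (G0 s).E2.card + (G0 s).E3.card := by
  have : (G0 s).E3.card = s ^ 3 := by
    simp only [G0]
    rw [Finset.card_image_of_injective _ (ed_inj s)]
    simp; ring
  omega

lemma bdd {m n : ℕ} (G : Aug m n) : G.E1.card + G.E2.card + G.E3.card ≤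
    Fintype.card (Cell m n) + Fintype.card (Finset (Cell m n)) +
      Fintype.card (Finset (Cell m n)) :=
  Nat.add_le_add (Nat.add_le_add (Finset.card_le_univ _) (Finset.card_le_univ _))
    (Finset.card_le_univ _)

lemma lowerA (s : ℕ) : s ^ 3 ≤ z3A (3 * s) (3 * s * (3 * s)) := by
  refine (card_G0 s).trans (le_csSup ?_ ⟨G0 s, simple_G0 s, free_G0 s, rfl⟩)
  exact ⟨_, by rintro N ⟨G, -, -, rfl⟩; exact bdd G⟩

lemma lowerL (s : ℕ) : s ^ 3 ≤ z3L (3 * s) (3 * s * (3 * s)) := by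
  refine (card_G0 s).trans (le_csSup ?_ ⟨G0 s, simple_G0 s, free_G0 s, z_eq _, rfl⟩)
  exact ⟨_, by rintro N ⟨G, -, -, -, rfl⟩; exact bdd G⟩

lemma unb (w : ℕ → ℕ → ℕ) (hw : ∀ s, s ^ 3 ≤ w (3 * s) (3 * s * (3 * s))) :
    ¬ ∃ C : ℝ, ∀ m n : ℕ, 2 ≤ m → 2 ≤ n → (w m n : ℝ) ≤ C * ((m : ℝ) * Real.sqrt n + n) := by
  rintro ⟨C, hC⟩
  obtain ⟨s, hs⟩ := exists_nat_gt (18 * |C| + 1)
  have hC0 : 0 ≤ |C| := abs_nonneg C
  have hs1 : (1 : ℝ) < s := by linarith
  have hs1' : 1 < s := by exact_mod_cast hs1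
  have h := hC (3 * s) (3 * s * (3 * s)) (by omega) (by nlinarith)
  have hl : ((s ^ 3 : ℕ) : ℝ) ≤ w (3 * s) (3 * s * (3 * s)) := by exact_mod_cast hw s
  have hq : Real.sqrt ((3 * s * (3 * s) : ℕ) : ℝ) = 3 * s := by
    rw [show ((3 * s * (3 * s) : ℕ) : ℝ) = (3 * (s : ℝ)) ^ 2 by push_cast; ring]
    exact Real.sqrt_sq (by linarith)
  rw [hq] at h
  push_cast at h hl
  have h5 : C * (3 * (s : ℝ) * (3 * s) + 3 * s * (3 * s)) ≤
      |C| * (3 * (s : ℝ) * (3 * s) + 3 * s * (3 * s)) :=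
    mul_le_mul_of_nonneg_right (le_abs_self C) (by positivity)
  have h6 : (s : ℝ) ^ 2 * s ≤ (s : ℝ) ^ 2 * (18 * |C|) := by nlinarith
  have h7 : (s : ℝ) ≤ 18 * |C| := le_of_mul_le_mul_left h6 (by positivity)
  linarith

theorem result :
    (∀ s : ℕ, s ^ 3 ≤ z3L (3 * s) (3 * s * (3 * s)) ∧ s ^ 3 ≤ z3A (3 * s) (3 * s * (3 * s))) ∧
    (¬ ∃ C : ℝ, ∀ m n : ℕ, 2 ≤ m → 2 ≤ n →
      (z3A m n : ℝ) ≤ C * ((m : ℝ) * Real.sqrt n + n)) ∧
    (¬ ∃ C : ℝ, ∀ m n : ℕ, 2 ≤ m → 2 ≤ n →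
      (z3L m n : ℝ) ≤ C * ((m : ℝ) * Real.sqrt n + n)) :=
  ⟨fun s => ⟨lowerL s, lowerA s⟩, unb z3A lowerA, unb z3L lowerL⟩

end Pool.Agent.Results.MP_10302a_co.Unbounded
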